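import Pool.Agent.Lib.MP_e1cf54_an.G1
import Pool.Agent.Lib.MP_e1cf54_an.Short

/-!
Answer to Q1 (affirmative): on every bounded strictly pseudoconvex domain with `C²` boundary, for
all `f ∈ L²`, `r > 0`, `p > 0`: `H_f` and `H_{conj f}` belong to `S_p` if and only if
`MO_r(f) ∈ L^p(Ω, dλ)`.
-/

open MeasureTheory HankelSPC

namespace Pool.Agent.Results.MP_e1cf54_an.AllDomains

/-- Let `Ω ⊆ ℂⁿ` (`n ≥ 1`) be a bounded strictly pseudoconvex domain, `f ∈ L²(Ω, dv)`, `r > 0` and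
`p > 0`. The Hankel operators `H_f` and `H_{conj f}` both belong to the Schatten class `S_p` if and
only if `MO_r(f) ∈ L^p(Ω, dλ)`. -/
theorem result {n : ℕ} (hn : 1 ≤ n) (Ω : Set (Cn n)) (hΩ : IsSPC Ω) (f : Cn n → ℂ)
    (hf : MemLp f 2 (vol Ω)) (r : ℝ) (hr : 0 < r) (p : ℝ) (hp : 0 < p) :
    (HankelIn Ω f p ∧ HankelIn Ω (fun z => (starRingEnd ℂ) (f z)) p) ↔
      MemLp (MO Ω f r) (ENNReal.ofReal p) (lam Ω) := by
  rw [hankelIn_iff, hankelIn_iff]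
  exact HankelSPC.main hn hΩ hf hr hp

end Pool.Agent.Results.MP_e1cf54_an.AllDomains
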